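import Pool.Agent.Helper42.SG.GoalsT
import Pool.Agent.Helper30.SGB.EDUP

/-!
# Project SG (MP_a41896_nt), part T, packet NZ1: preimages under multiplication by `2^e`
-/

set_option autoImplicit false

namespace Pool.Agent.Helper30.SGT

open WeierstrassCurve Polynomial
open Pool.Agent.Helper29.BL Pool.Agent.Helper42.SG

theorem wr_step (R : Type) [CommRing R] (V : WeierstrassCurve R) (t z u w : R) :
    (4 * t ^ 3 * u - V.b₄ * (2 * t * u * z ^ 2 + t ^ 2 * (2 * z * w)) -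
        2 * V.b₆ * (u * z ^ 3 + t * (3 * z ^ 2 * w)) - V.b₈ * (4 * z ^ 3 * w)) * Bh V t z -
      Ah V t z * (4 * (3 * t ^ 2 * u * z + t ^ 3 * w) +
        V.b₂ * (2 * t * u * z ^ 2 + t ^ 2 * (2 * z * w)) +
        2 * V.b₄ * (u * z ^ 3 + t * (3 * z ^ 2 * w)) + V.b₆ * (4 * z ^ 3 * w)) =
      2 * Ch V t z * (u * z - t * w) := by
  simp only [Ah, Bh, Ch, WeierstrassCurve.b₂, WeierstrassCurve.b₄, WeierstrassCurve.b₆,
    WeierstrassCurve.b₈]
  ring

section poly

variable {F : Type} [Field F] (W : WeierstrassCurve F)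

theorem ev_Ah (t z : F[X]) (ξ : F) :
    (Ah (W.map C) t z).eval ξ = Ah W (t.eval ξ) (z.eval ξ) := by
  simp [Ah]

theorem ev_Bh (t z : F[X]) (ξ : F) :
    (Bh (W.map C) t z).eval ξ = Bh W (t.eval ξ) (z.eval ξ) := by
  simp [Bh]

theorem ev_Ch (t z : F[X]) (ξ : F) :
    (Ch (W.map C) t z).eval ξ = Ch W (t.eval ξ) (z.eval ξ) := by
  simp [Ch]

theorem ev_Ph (e : ℕ) (ξ : F) :
    (Ph (W.map C) e X).1.eval ξ = (Ph W e ξ).1 ∧ (Ph (W.map C) e X).2.eval ξ = (Ph W e ξ).2 := by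
  induction e with
  | zero => simp [Ph]
  | succ e ih =>
    obtain ⟨h1, h2⟩ := ih
    simp only [Ph]
    rw [ev_Ah, ev_Bh, h1, h2]
    exact ⟨rfl, rfl⟩

theorem ev_Rr (e : ℕ) (ξ : F) : (Rr (W.map C) e X).eval ξ = Rr W e ξ := by
  induction e with
  | zero => simp [Rr]
  | succ e ih =>
    simp only [Rr]
    rw [eval_mul, ih, ev_Ch, (ev_Ph W e ξ).1, (ev_Ph W e ξ).2]

theorem der_Ah (t z : F[X]) : derivative (Ah (W.map C) t z) =
    4 * t ^ 3 * derivative t - (W.map C).b₄ * (2 * t * derivative t * z ^ 2 +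
      t ^ 2 * (2 * z * derivative z)) -
        2 * (W.map C).b₆ * (derivative t * z ^ 3 + t * (3 * z ^ 2 * derivative z)) -
          (W.map C).b₈ * (4 * z ^ 3 * derivative z) := by
  simp only [Ah, map_b₄, map_b₆, map_b₈, derivative_sub, derivative_mul, derivative_pow, derivative_C,
    derivative_ofNat]
  norm_num
  simp only [C_ofNat]
  ring

theorem der_Bh (t z : F[X]) : derivative (Bh (W.map C) t z) =
    4 * (3 * t ^ 2 * derivative t * z + t ^ 3 * derivative z) +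
        (W.map C).b₂ * (2 * t * derivative t * z ^ 2 + t ^ 2 * (2 * z * derivative z)) +
        2 * (W.map C).b₄ * (derivative t * z ^ 3 + t * (3 * z ^ 2 * derivative z)) +
          (W.map C).b₆ * (4 * z ^ 3 * derivative z) := by
  simp only [Bh, map_b₂, map_b₄, map_b₆, derivative_add, derivative_mul, derivative_pow, derivative_C,
    derivative_ofNat]
  norm_num
  simp only [C_ofNat]
  ring

theorem wr (e : ℕ) : derivative (Ph (W.map C) e X).1 * (Ph (W.map C) e X).2 -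
    (Ph (W.map C) e X).1 * derivative (Ph (W.map C) e X).2 = 2 ^ e * Rr (W.map C) e X := by
  induction e with
  | zero => simp [Ph, Rr]
  | succ e ih =>
    simp only [Ph, Rr]
    rw [der_Ah, der_Bh, wr_step, ih]
    ring

theorem deg_Ph (e : ℕ) : (Ph (W.map C) e X).1.Monic ∧ (Ph (W.map C) e X).1.natDegree = 4 ^ e ∧
    (Ph (W.map C) e X).2.natDegree + 1 ≤ 4 ^ e := by
  induction e with
  | zero => simp [Ph]
  | succ e ih =>
    obtain ⟨h1, h2, h3⟩ := ih
    simp only [Ph]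
    generalize (Ph (W.map C) e X).1 = t at h1 h2 ⊢
    generalize (Ph (W.map C) e X).2 = z at h3 ⊢
    have hz : z.natDegree ≤ 4 ^ e - 1 := by omega
    have hp : 0 < 4 ^ e := by positivity
    have ht4 : (t ^ 4).Monic := h1.pow 4
    have hdt4 : (t ^ 4).natDegree = 4 ^ (e + 1) := by
      rw [h1.natDegree_pow, h2, pow_succ]; ring
    have hCz : ∀ (c : F) (i j : ℕ), i + j = 4 → 1 ≤ j →
        (C c * t ^ i * z ^ j).natDegree ≤ 4 ^ (e + 1) - 1 := by
      intro c i j hij hj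
      have b1 : (C c * t ^ i).natDegree ≤ 0 + i * 4 ^ e :=
        natDegree_mul_le_of_le (natDegree_C c).le (natDegree_pow_le_of_le i h2.le)
      have b2 : (z ^ j).natDegree ≤ j * (4 ^ e - 1) := natDegree_pow_le_of_le j hz
      refine (natDegree_mul_le_of_le b1 b2).trans ?_
      have hj1 : j * (4 ^ e - 1) = j * 4 ^ e - j := by rw [Nat.mul_sub, mul_one]
      have hj2 : j ≤ j * 4 ^ e := Nat.le_mul_of_pos_right j hp
      have hij' : i * 4 ^ e + j * 4 ^ e = 4 ^ (e + 1) := by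
        rw [← add_mul, hij, pow_succ]; ring
      omega
    have e1 : Ah (W.map C) t z = t ^ 4 + (C (-W.b₄) * t ^ 2 * z ^ 2 + C (-2 * W.b₆) * t ^ 1 * z ^ 3 +
        C (-W.b₈) * t ^ 0 * z ^ 4) := by
      simp only [Ah, map_b₄, map_b₆, map_b₈, map_neg, map_mul, C_ofNat]
      ring
    have e2 : Bh (W.map C) t z = C 4 * t ^ 3 * z ^ 1 + C W.b₂ * t ^ 2 * z ^ 2 +
        C (2 * W.b₄) * t ^ 1 * z ^ 3 + C W.b₆ * t ^ 0 * z ^ 4 := by
      simp only [Bh, map_b₂, map_b₄, map_b₆, map_mul, C_ofNat]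
      ring
    have hq : 0 < 4 ^ (e + 1) := by positivity
    have hrest : (C (-W.b₄) * t ^ 2 * z ^ 2 + C (-2 * W.b₆) * t ^ 1 * z ^ 3 +
        C (-W.b₈) * t ^ 0 * z ^ 4).natDegree ≤ 4 ^ (e + 1) - 1 := by
      refine natDegree_add_le_of_degree_le (natDegree_add_le_of_degree_le ?_ ?_) ?_
      · exact hCz _ 2 2 rfl (by norm_num)
      · exact hCz _ 1 3 rfl (by norm_num)
      · exact hCz _ 0 4 rfl (by norm_num)
    have hlt : (C (-W.b₄) * t ^ 2 * z ^ 2 + C (-2 * W.b₆) * t ^ 1 * z ^ 3 +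
        C (-W.b₈) * t ^ 0 * z ^ 4).natDegree < (t ^ 4).natDegree := by
      rw [hdt4]; omega
    refine ⟨?_, ?_, ?_⟩
    · rw [e1]
      exact ht4.add_of_left (degree_lt_degree hlt)
    · rw [e1, natDegree_add_eq_left_of_natDegree_lt hlt, hdt4]
    · rw [e2]
      have : (C 4 * t ^ 3 * z ^ 1 + C W.b₂ * t ^ 2 * z ^ 2 +
        C (2 * W.b₄) * t ^ 1 * z ^ 3 + C W.b₆ * t ^ 0 * z ^ 4).natDegree ≤ 4 ^ (e + 1) - 1 := by
        refine natDegree_add_le_of_degree_le (natDegree_add_le_of_degree_le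
          (natDegree_add_le_of_degree_le ?_ ?_) ?_) ?_
        · exact hCz _ 3 1 rfl (by norm_num)
        · exact hCz _ 2 2 rfl (by norm_num)
        · exact hCz _ 1 3 rfl (by norm_num)
        · exact hCz _ 0 4 rfl (by norm_num)
      omega

end poly

theorem exists_point (Ω : Type) [Field Ω] [IsAlgClosed Ω] [CharZero Ω] (W : Affine Ω)
    [W.IsElliptic] (ξ : Ω) : ∃ (y : Ω), W.Nonsingular ξ y := by
  obtain ⟨s, hs⟩ := IsAlgClosed.exists_pow_nat_eq (Bf W ξ) (n := 2) (by norm_num)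
  refine ⟨(s - (W.a₁ * ξ + W.a₃)) / 2, ?_⟩
  rw [← Affine.equation_iff_nonsingular, Affine.equation_iff]
  have h2 : (2 : Ω) ≠ 0 := two_ne_zero
  simp only [Bf, WeierstrassCurve.b₂, WeierstrassCurve.b₄, WeierstrassCurve.b₆] at hs
  field_simp
  linear_combination hs

theorem t_NZ1 (h1 : RPOL) (h2 : EDUP) : Pool.Agent.Helper42.SG.NZ1 := by
  intro Ω _ _ _ _ W _ R e G hR hG hdeg
  have hR0 : R ≠ 0 := by
    rintro rfl
    exact hR (smul_zero 2)
  set Φ : (Polynomial Ω) := (Ph (W.map C) e X).1 with hΦ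
  set Ψ : (Polynomial Ω) := (Ph (W.map C) e X).2 with hΨ
  obtain ⟨d1, d2, d3⟩ := deg_Ph W e
  have hW := wr W e
  rw [← hΦ] at d1 d2
  rw [← hΨ] at d3
  rw [← hΦ, ← hΨ] at hW
  set u : Ω := xc R with hu
  have hBu : Bf W u ≠ 0 := by
    rcases R with _ | ⟨x, y, h⟩
    · exact absurd rfl hR0
    have : u = x := rfl
    rw [this, ← Pool.Agent.Helper30.SGB.ps_sq W x y h]
    apply pow_ne_zero
    intro h0
    apply hR
    rw [two_smul]
    exact (Pool.Agent.Helper30.SGB.two_eq_zero W x y h).2 h0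
  set f : (Polynomial Ω) := Φ + -(C u * Ψ) with hf
  have hlt : (-(C u * Ψ)).natDegree < Φ.natDegree := by
    rw [natDegree_neg, d2]
    have := natDegree_C_mul_le u Ψ
    omega
  have hfm : f.Monic := d1.add_of_left (degree_lt_degree hlt)
  have hfd : f.natDegree = 4 ^ e := by
    rw [hf, natDegree_add_eq_left_of_natDegree_lt hlt, d2]
  have hf0 : f ≠ 0 := hfm.ne_zero
  have evf : ∀ ξ : Ω, f.eval ξ = (Ph W e ξ).1 - u * (Ph W e ξ).2 := by
    intro ξ
    rw [hf, eval_add, eval_neg, eval_mul, eval_C, hΦ, hΨ, (ev_Ph W e ξ).1, (ev_Ph W e ξ).2]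
    ring
  -- at a root
  have key : ∀ ξ : Ω, f.eval ξ = 0 → (Ph W e ξ).2 ≠ 0 ∧ (derivative f).eval ξ ≠ 0 ∧
      ∃ P : W.Point, P ≠ 0 ∧ xc P = ξ ∧ (2 ^ e) • P ≠ 0 ∧ xc ((2 ^ e) • P) = u := by
    intro ξ hξ
    have hev : (Ph W e ξ).1 = u * (Ph W e ξ).2 := by
      have := evf ξ
      rw [hξ] at this
      linear_combination -this
    obtain ⟨y, hy⟩ := exists_point Ω W ξ
    set P : W.Point := Affine.Point.some ξ y hy with hP
    have hP0 : P ≠ 0 := Affine.Point.some_ne_zero _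
    have hxP : xc P = ξ := rfl
    obtain ⟨q1, q2, q3, -⟩ := h2 Ω W P e hP0
    rw [hxP] at q1 q2 q3
    have hz : (Ph W e ξ).2 ≠ 0 := by
      intro h0
      rcases q1 with h | h
      · apply h
        rw [hev, h0, mul_zero]
      · exact h h0
    have hne : (2 ^ e) • P ≠ 0 := fun h => hz (q2.2 h)
    have hxu : xc ((2 ^ e) • P) = u := by
      have := q3 hne
      rw [hev] at this
      exact (mul_right_cancel₀ hz this).symm
    refine ⟨hz, ?_, P, hP0, hxP, hne, hxu⟩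
    -- the derivative
    have w := congrArg (eval ξ) hW
    rw [eval_sub, eval_mul, eval_mul, eval_mul, ev_Rr, hΦ, hΨ, (ev_Ph W e ξ).1, (ev_Ph W e ξ).2,
      ← hΦ, ← hΨ] at w
    have hdf : (derivative f).eval ξ = (derivative Φ).eval ξ - u * (derivative Ψ).eval ξ := by
      rw [hf, derivative_add, derivative_neg, derivative_C_mul, eval_add, eval_neg, eval_mul,
        eval_C]
      ring
    have hdz : (derivative f).eval ξ * (Ph W e ξ).2 = 2 ^ e * Rr W e ξ := by
      rw [hdf]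
      have e2 : (eval ξ ((2 : (Polynomial Ω)) ^ e)) = 2 ^ e := by simp
      rw [e2, hev] at w
      linear_combination w
    have r := (h1 Ω W).2.1 e ξ
    have hhom : Bh W (Ph W e ξ).1 (Ph W e ξ).2 = (Ph W e ξ).2 ^ 4 * Bf W u := by
      rw [hev]
      simp only [Bh, Bf]
      ring
    rw [hhom] at r
    intro h0
    rw [h0, zero_mul] at hdz
    have hR : Rr W e ξ = 0 := by
      rcases mul_eq_zero.1 hdz.symm with h | h
      · exact absurd h (pow_ne_zero _ two_ne_zero)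
      · exact h
    rw [hR] at r
    have : (Ph W e ξ).2 ^ 4 * Bf W u ≠ 0 := mul_ne_zero (pow_ne_zero _ hz) hBu
    apply this
    rw [← r]
    ring
  -- the roots are distinct
  have hnd : f.roots.Nodup := by
    rw [Multiset.nodup_iff_count_le_one]
    intro ξ
    rw [count_roots]
    by_contra hcon
    push Not at hcon
    have := (one_lt_rootMultiplicity_iff_isRoot hf0).1 hcon
    exact (key ξ this.1).2.1 this.2
  have hcard : f.roots.card = 4 ^ e := by
    rw [← hfd]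
    exact IsAlgClosed.card_roots_eq_natDegree
  -- some root is not a root of `G`
  obtain ⟨ξ, hξ, hξG⟩ : ∃ ξ : Ω, f.eval ξ = 0 ∧ G.eval ξ ≠ 0 := by
    by_contra hcon
    push Not at hcon
    have hsub : f.roots ≤ G.roots := by
      rw [Multiset.le_iff_subset hnd]
      intro ξ hξ
      rw [mem_roots hf0] at hξ
      rw [mem_roots hG]
      exact hcon ξ hξ
    have := Multiset.card_le_card hsub
    have h3 := card_roots' G
    omega
  obtain ⟨-, -, P, hP0, hxP, hne, hxu⟩ := key ξ hξ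
  have hx := (xeq Ω W).1 ((2 ^ e) • P) R hne hR0
  rcases hx.1 hxu with h | h
  · refine ⟨P, hP0, h, ?_⟩
    rw [hxP]; exact hξG
  · refine ⟨-P, neg_ne_zero.2 hP0, ?_, ?_⟩
    · rw [smul_neg, h, neg_neg]
    · rw [(xeq Ω W).2 P, hxP]; exact hξG

end Pool.Agent.Helper30.SGT
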